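import Mathlib
import Pool.Agent.U73.LC.Stm

/-! Project LC (helper73), package EUP, by helper774: the Euler product of the constant. -/

namespace Pool.Agent.U774.LC

open Filter Topology Finset

noncomputable def cc (p : ℕ) : ℝ := ((p : ℝ) - 1) / ((p : ℝ) ^ 2 + p - 1)

noncomputable def g (n : ℕ) : ℝ := (n : ℝ) ^ (-(1 / 6) : ℝ) * ∏ p ∈ n.primeFactors, cc p

lemma cc_nonneg {p : ℕ} (hp : p.Prime) : 0 ≤ cc p := by
  have h2 : (2 : ℝ) ≤ p := by exact_mod_cast hp.two_le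
  unfold cc
  apply div_nonneg <;> nlinarith

lemma cc_le {p : ℕ} (hp : p.Prime) : cc p ≤ (p : ℝ)⁻¹ := by
  have h2 : (2 : ℝ) ≤ p := by exact_mod_cast hp.two_le
  unfold cc
  rw [inv_eq_one_div, div_le_div_iff₀ (by nlinarith) (by linarith)]
  nlinarith

lemma g_zero : g 0 = 0 := by
  unfold g
  rw [Nat.cast_zero, Real.zero_rpow (by norm_num), zero_mul]

lemma g_one : g 1 = 1 := by
  unfold g
  simp

lemma g_nonneg (n : ℕ) : 0 ≤ g n :=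
  mul_nonneg (Real.rpow_nonneg (Nat.cast_nonneg n) _)
    (prod_nonneg fun _ hp => cc_nonneg (Nat.prime_of_mem_primeFactors hp))

lemma g_mul {m n : ℕ} (h : Nat.Coprime m n) : g (m * n) = g m * g n := by
  unfold g
  rw [h.primeFactors_mul, prod_union h.disjoint_primeFactors, Nat.cast_mul,
    Real.mul_rpow (Nat.cast_nonneg m) (Nat.cast_nonneg n)]
  ring

lemma g_pow {p : ℕ} (hp : p.Prime) {k : ℕ} (hk : k ≠ 0) :
    g (p ^ k) = cc p * ((p : ℝ) ^ (-(1 / 6) : ℝ)) ^ k := by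
  unfold g
  rw [Nat.primeFactors_prime_pow hk hp, prod_singleton, Nat.cast_pow,
    ← Real.rpow_pow_comm (Nat.cast_nonneg p), mul_comm]

lemma q_pos {p : ℕ} (hp : p.Prime) : 0 < (p : ℝ) ^ (-(1 / 6) : ℝ) :=
  Real.rpow_pos_of_pos (by exact_mod_cast hp.pos) _

lemma q_le {p : ℕ} (hp : p.Prime) : (p : ℝ) ^ (-(1 / 6) : ℝ) ≤ (2 : ℝ) ^ (-(1 / 6) : ℝ) :=
  Real.rpow_le_rpow_of_nonpos (by norm_num) (by exact_mod_cast hp.two_le) (by norm_num)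

lemma q0_lt : (2 : ℝ) ^ (-(1 / 6) : ℝ) < 1 :=
  Real.rpow_lt_one_of_one_lt_of_neg (by norm_num) (by norm_num)

lemma q_lt {p : ℕ} (hp : p.Prime) : (p : ℝ) ^ (-(1 / 6) : ℝ) < 1 := (q_le hp).trans_lt q0_lt

/-- the sum over the powers of `p` -/
noncomputable def sp (p : ℕ) : ℝ :=
  cc p * ((p : ℝ) ^ (-(1 / 6) : ℝ) * (1 - (p : ℝ) ^ (-(1 / 6) : ℝ))⁻¹)

lemma hasSum_pow {p : ℕ} (hp : p.Prime) : HasSum (fun k : ℕ => g (p ^ k)) (1 + sp p) := by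
  have h1 := (hasSum_geometric_of_lt_one (q_pos hp).le (q_lt hp)).mul_left
    (cc p * (p : ℝ) ^ (-(1 / 6) : ℝ))
  have e1 : (fun k : ℕ => g (p ^ (k + 1))) = fun i : ℕ => cc p * (p : ℝ) ^ (-(1 / 6) : ℝ) *
      ((p : ℝ) ^ (-(1 / 6) : ℝ)) ^ i := by
    funext k
    rw [g_pow hp (Nat.succ_ne_zero k), pow_succ]
    ring
  have e2 : sp p = cc p * (p : ℝ) ^ (-(1 / 6) : ℝ) * (1 - (p : ℝ) ^ (-(1 / 6) : ℝ))⁻¹ := by
    unfold sp; ring
  have h2 : HasSum (fun k : ℕ => g (p ^ (k + 1))) (sp p) := by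
    rw [e1, e2]
    exact h1
  have h3 := (hasSum_nat_add_iff (f := fun k : ℕ => g (p ^ k)) 1).mp h2
  simpa [g_one, add_comm] using h3

lemma sp_nonneg {p : ℕ} (hp : p.Prime) : 0 ≤ sp p :=
  mul_nonneg (cc_nonneg hp) (mul_nonneg (q_pos hp).le (inv_nonneg.mpr (by linarith [q_lt hp])))

lemma sp_le {p : ℕ} (hp : p.Prime) :
    sp p ≤ (1 - (2 : ℝ) ^ (-(1 / 6) : ℝ))⁻¹ * (p : ℝ) ^ (-(7 / 6) : ℝ) := by
  have hp0 : (0 : ℝ) < p := by exact_mod_cast hp.pos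
  have e : (p : ℝ) ^ (-(7 / 6) : ℝ) = (p : ℝ)⁻¹ * (p : ℝ) ^ (-(1 / 6) : ℝ) := by
    rw [← Real.rpow_neg_one, ← Real.rpow_add hp0]
    norm_num
  have h1 : (1 - (p : ℝ) ^ (-(1 / 6) : ℝ))⁻¹ ≤ (1 - (2 : ℝ) ^ (-(1 / 6) : ℝ))⁻¹ := by
    apply inv_anti₀ (by linarith [q0_lt]) (by linarith [q_le hp])
  have h0 : 0 ≤ (1 - (p : ℝ) ^ (-(1 / 6) : ℝ))⁻¹ := inv_nonneg.mpr (by linarith [q_lt hp])
  unfold sp
  rw [e]
  calc cc p * ((p : ℝ) ^ (-(1 / 6) : ℝ) * (1 - (p : ℝ) ^ (-(1 / 6) : ℝ))⁻¹)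
      ≤ (p : ℝ)⁻¹ * ((p : ℝ) ^ (-(1 / 6) : ℝ) * (1 - (2 : ℝ) ^ (-(1 / 6) : ℝ))⁻¹) := by
        apply mul_le_mul (cc_le hp) _ (mul_nonneg (q_pos hp).le h0) (inv_nonneg.mpr hp0.le)
        exact mul_le_mul_of_nonneg_left h1 (q_pos hp).le
    _ = _ := by ring

lemma summable_bound :
    Summable (fun n : ℕ => (1 - (2 : ℝ) ^ (-(1 / 6) : ℝ))⁻¹ * (n : ℝ) ^ (-(7 / 6) : ℝ)) :=
  (Real.summable_nat_rpow.mpr (by norm_num)).mul_left _

lemma summable_pow {p : ℕ} (hp : p.Prime) : Summable (fun k : ℕ => ‖g (p ^ k)‖) := by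
  simp_rw [fun k : ℕ => Real.norm_of_nonneg (g_nonneg (p ^ k))]
  exact (hasSum_pow hp).summable

lemma prod_bound (N : ℕ) : ∏ p ∈ N.primesBelow, (1 + sp p) ≤
    Real.exp (∑' n : ℕ, (1 - (2 : ℝ) ^ (-(1 / 6) : ℝ))⁻¹ * (n : ℝ) ^ (-(7 / 6) : ℝ)) := by
  calc ∏ p ∈ N.primesBelow, (1 + sp p)
      ≤ ∏ p ∈ N.primesBelow, Real.exp (sp p) := by
        apply Finset.prod_le_prod
        · intro p hp
          linarith [sp_nonneg (Nat.prime_of_mem_primesBelow hp)]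
        · intro p _
          linarith [Real.add_one_le_exp (sp p)]
    _ = Real.exp (∑ p ∈ N.primesBelow, sp p) := (Real.exp_sum _ _).symm
    _ ≤ _ := by
        apply Real.exp_le_exp.mpr
        refine (sum_le_sum fun p hp => sp_le (Nat.prime_of_mem_primesBelow hp)).trans ?_
        apply summable_bound.sum_le_tsum
        intro n _
        exact mul_nonneg (inv_nonneg.mpr (by linarith [q0_lt])) (Real.rpow_nonneg (Nat.cast_nonneg n) _)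

lemma summable_g : Summable g := by
  apply summable_of_sum_le (c := Real.exp (∑' n : ℕ, (1 - (2 : ℝ) ^ (-(1 / 6) : ℝ))⁻¹ *
    (n : ℝ) ^ (-(7 / 6) : ℝ))) g_nonneg
  intro u
  obtain ⟨N, hN⟩ := u.exists_nat_subset_range
  have h := (EulerProduct.summable_and_hasSum_smoothNumbers_prod_primesBelow_tsum g_one
    (fun h => g_mul h) (fun hp => summable_pow hp) N).2
  have h' : HasSum ((N.smoothNumbers).indicator g) (∏ p ∈ N.primesBelow, ∑' n : ℕ, g (p ^ n)) :=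
    hasSum_subtype_iff_indicator.mp h
  have e : ∏ p ∈ N.primesBelow, ∑' n : ℕ, g (p ^ n) = ∏ p ∈ N.primesBelow, (1 + sp p) :=
    prod_congr rfl fun p hp => (hasSum_pow (Nat.prime_of_mem_primesBelow hp)).tsum_eq
  rw [e] at h'
  refine le_trans ?_ ((sum_le_hasSum u (fun i _ => Set.indicator_nonneg (fun x _ => g_nonneg x) i)
    h').trans (prod_bound N))
  apply sum_le_sum
  intro x hx
  rcases Nat.eq_zero_or_pos x with h0 | h0
  · subst h0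
    rw [g_zero]
    exact Set.indicator_nonneg (fun x _ => g_nonneg x) _
  · rw [Set.indicator_of_mem]
    exact Nat.mem_smoothNumbers_of_lt h0 (mem_range.mp (hN hx))

lemma tendsto_g : Tendsto (fun z => ∏ p ∈ Nat.primesBelow z, (1 + sp p)) atTop (𝓝 (∑' n, g n)) := by
  have h := EulerProduct.eulerProduct g_one (fun h => g_mul h)
    (by simpa only [Real.norm_of_nonneg (g_nonneg _)] using summable_g) g_zero
  refine h.congr fun z => ?_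
  exact prod_congr rfl fun p hp => (hasSum_pow (Nat.prime_of_mem_primesBelow hp)).tsum_eq

lemma factor {p : ℕ} (hp : p.Prime) :
    (1 - 1 / ((p : ℝ) * ((p : ℝ) + 1))) * (1 + sp p) =
      1 + (((p : ℝ) - 1) / ((p : ℝ) ^ (1 / 6 : ℝ) - 1) - 1) / ((p : ℝ) * ((p : ℝ) + 1)) := by
  have h2 : (2 : ℝ) ≤ p := by exact_mod_cast hp.two_le
  have hp0 : (0 : ℝ) < p := by linarith
  have hr : 1 < (p : ℝ) ^ (1 / 6 : ℝ) := Real.one_lt_rpow (by linarith) (by norm_num)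
  have e : (p : ℝ) ^ (-(1 / 6) : ℝ) = ((p : ℝ) ^ (1 / 6 : ℝ))⁻¹ := Real.rpow_neg hp0.le _
  unfold sp cc
  rw [e]
  set r := (p : ℝ) ^ (1 / 6 : ℝ) with hrdef
  have h3 : r ≠ 0 := by linarith
  have h4 : r - 1 ≠ 0 := by linarith
  have h5 : (p : ℝ) ^ 2 + p - 1 ≠ 0 := by nlinarith
  have h6 : (p : ℝ) + 1 ≠ 0 := by linarith
  have h7 : (1 : ℝ) - r⁻¹ ≠ 0 := by
    have : r⁻¹ < 1 := inv_lt_one_of_one_lt₀ hr
    linarith
  have h8 : r⁻¹ * (1 - r⁻¹)⁻¹ = (r - 1)⁻¹ := by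
    field_simp
  rw [h8, div_eq_mul_inv ((p : ℝ) - 1) (r - 1)]
  generalize (r - 1)⁻¹ = s
  have hA : 1 - 1 / ((p : ℝ) * ((p : ℝ) + 1)) = ((p : ℝ) ^ 2 + p - 1) / ((p : ℝ) * ((p : ℝ) + 1)) := by
    field_simp
  have hB : 1 + (((p : ℝ) - 1) * s - 1) / ((p : ℝ) * ((p : ℝ) + 1)) =
      (((p : ℝ) ^ 2 + p - 1) + ((p : ℝ) - 1) * s) / ((p : ℝ) * ((p : ℝ) + 1)) := by
    field_simp
    ring
  rw [hA, hB]
  have hC : ((p : ℝ) ^ 2 + p - 1) * (1 + ((p : ℝ) - 1) / ((p : ℝ) ^ 2 + p - 1) * s) =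
      ((p : ℝ) ^ 2 + p - 1) + ((p : ℝ) - 1) * s := by
    rw [mul_add, mul_one, ← mul_assoc, mul_div_cancel₀ _ h5]
  rw [← hC]
  ring

theorem t_EUP : Pool.Agent.U73.LC.S_EUP := by
  intro μ hμ h0 _ hprod hform
  have key : ∀ n : ℕ, (n : ℝ) ^ (5 / 6 : ℝ) * μ n = μ 1 * g n := by
    intro n
    rcases Nat.eq_zero_or_pos n with hn | hn
    · subst hn
      rw [h0, g_zero, mul_zero, mul_zero]
    · have hn0 : (0 : ℝ) < n := by exact_mod_cast hn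
      have e : (n : ℝ) ^ (-(1 / 6) : ℝ) = (n : ℝ) ^ (5 / 6 : ℝ) * (n : ℝ)⁻¹ := by
        rw [← Real.rpow_neg_one, ← Real.rpow_add hn0]
        norm_num
      rw [hform n hn]
      unfold g cc
      rw [e]
      ring
  have hfun : (fun n : ℕ => (n : ℝ) ^ (5 / 6 : ℝ) * μ n) = fun n => μ 1 * g n := funext key
  refine ⟨by rw [hfun]; exact summable_g.mul_left _, ?_⟩
  rw [hfun, tsum_mul_left]
  refine (hprod.mul tendsto_g).congr fun z => ?_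
  rw [← prod_mul_distrib]
  exact prod_congr rfl fun p hp => factor (Nat.prime_of_mem_primesBelow hp)

end Pool.Agent.U774.LC
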